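import Pool.Agent.Q256.TreeZ

/-!
Finiteness of the survival number is not invariant under quasi-isometries: the strong product of
the four-regular tree with the two-way infinite path has survival number at most `8`, while their
Cartesian product has infinite survival number.
-/

namespace Pool.Agent.Results.MP_b633b3_co.StrongVersusCartesian

open SimpleGraph Pool.Agent.Q256.Surv Pool.Agent.Q256.TreeZ

/-- quasi-isometric graphs -/
def QuasiIsometric {V W : Type*} (G : SimpleGraph V) (H : SimpleGraph W) : Prop :=
  ∃ (f : V → W) (L c : ℝ), 1 ≤ L ∧ 0 ≤ c ∧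
    (∀ x y, L⁻¹ * G.dist x y - c ≤ H.dist (f x) (f y) ∧
      (H.dist (f x) (f y) : ℝ) ≤ L * G.dist x y + c) ∧
    ∀ y, ∃ x, (H.dist y (f x) : ℝ) ≤ c

/-- If `y` is a prefix of `x` but not of `z`, then `|z⁻¹x| ≥ |z| + |x| - 2|y|`. -/
theorem norm_branch (y : List Lt) : ∀ x z : F, y <+: x.toWord → ¬ y <+: z.toWord →
    z.norm + x.norm ≤ (z⁻¹ * x).norm + 2 * y.length := by
  induction y with
  | nil => intro x z _ h; exact absurd (List.nil_prefix) h
  | cons s y ih =>
    intro x z hx hz
    obtain ⟨t, ht⟩ := hx
    have hxw : x.toWord = s :: (y ++ t) := by rw [← ht]; rfl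
    by_cases hzs : ∃ w, z.toWord = s :: w
    · obtain ⟨w, hw⟩ := hzs
      have h1 := ih ((gen s)⁻¹ * x) ((gen s)⁻¹ * z) (by rw [toWord_drop hxw]; exact ⟨t, rfl⟩) (by
        rw [toWord_drop hw]
        intro h
        apply hz
        rw [hw]
        exact (List.prefix_cons_inj s).2 h)
      have h2 := norm_drop hxw
      have h3 := norm_drop hw
      have h4 : (((gen s)⁻¹ * z)⁻¹ * ((gen s)⁻¹ * x)) = z⁻¹ * x := by group
      rw [h4] at h1
      simp only [List.length_cons]
      omega
    · -- no cancellation
      have h1 : FreeGroup.IsReduced ((z⁻¹).toWord ++ x.toWord) := by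
        refine List.isChain_append.2
          ⟨FreeGroup.isReduced_toWord, FreeGroup.isReduced_toWord, ?_⟩
        intro a ha b hb hab
        rw [hxw] at hb
        simp only [List.head?_cons, Option.mem_def, Option.some.injEq] at hb
        subst hb
        rw [FreeGroup.toWord_inv] at ha
        cases hzw : z.toWord with
        | nil =>
          rw [hzw] at ha
          simp [FreeGroup.invRev] at ha
        | cons c w =>
          rw [hzw] at ha
          simp [FreeGroup.invRev] at ha
          subst ha
          by_contra hne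
          apply hzs
          refine ⟨w, ?_⟩
          rw [hzw]
          congr 1
          refine Prod.ext hab ?_
          simp only at hne
          cases hc : c.2 <;> cases hs : s.2 <;> simp_all
      have h2 : (z⁻¹ * x).norm = (z⁻¹).norm + x.norm := by
        rw [FreeGroup.norm, FreeGroup.toWord_mul, h1.reduce_eq, List.length_append]
        rfl
      rw [FreeGroup.norm_inv_eq] at h2
      omega

/-- letters -/
def la : Lt := (true, true)
/-- letters -/
def lb : Lt := (false, true)

/-- the prefixes -/
def pre (n i : ℕ) : List Lt := List.replicate i la ++ List.replicate (n - i) lb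

theorem pre_length (n i : ℕ) (h : i ≤ n) : (pre n i).length = n := by
  simp [pre]; omega

theorem count_pre (n i : ℕ) : (pre n i).count la = i := by
  simp [pre, List.count_replicate, la, lb]

theorem reduced_of_pos (w : List Lt) (h : ∀ s ∈ w, s.2 = true) : FreeGroup.IsReduced w := by
  unfold FreeGroup.IsReduced
  induction w with
  | nil => exact List.isChain_nil
  | cons s w ih =>
    rw [List.isChain_cons]
    refine ⟨?_, ih (fun t ht => h t (List.mem_cons_of_mem _ ht))⟩
    intro t ht _
    rw [h s List.mem_cons_self, h t (List.mem_cons_of_mem _ (List.mem_of_mem_head? ht))]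

/-- the test words -/
def word (n i r : ℕ) : List Lt := pre n i ++ List.replicate r lb

theorem word_red (n i r : ℕ) : FreeGroup.IsReduced (word n i r) := by
  apply reduced_of_pos
  intro s hs
  simp only [word, pre, List.mem_append, List.mem_replicate] at hs
  rcases hs with (⟨-, rfl⟩ | ⟨-, rfl⟩) | ⟨-, rfl⟩ <;> rfl

theorem toWord_word (n i r : ℕ) : (FreeGroup.mk (word n i r) : F).toWord = word n i r := by
  rw [FreeGroup.toWord_mk]
  exact (word_red n i r).reduce_eq

theorem GC_survival : survival GC = ⊤ := by
  classical
  apply survival_eq_top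
  intro n
  refine ⟨2 * n, fun T hT => ?_⟩
  by_contra hcon
  obtain ⟨w, hwT, P, hPT, hPcard, hwP, hfin⟩ :=
    exists_beaten GC T (by have := hT.1; omega)
  -- a site for every prefix
  have key : ∀ i : Fin n, ∃ p ∈ P, pre n i <+: (w.1⁻¹ * p.1).toWord := by
    intro i
    have hinj : Function.Injective
        (fun r : ℕ => ((w.1 * FreeGroup.mk (word n i r), w.2) : F × ℤ)) := by
      intro r r' h
      have h1 := mul_left_cancel (Prod.mk.inj h).1
      have h2 : (FreeGroup.mk (word n i r) : F).toWord.length =
          (FreeGroup.mk (word n i r') : F).toWord.length := by rw [h1]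
      rw [toWord_word, toWord_word] at h2
      simp only [word, List.length_append, List.length_replicate] at h2
      omega
    obtain ⟨r, hr⟩ : ∃ r : ℕ, ((w.1 * FreeGroup.mk (word n i r), w.2) : F × ℤ) ∉
        {u | ∀ p ∈ P, GC.dist u w ≤ GC.dist u p} := by
      by_contra hcon2
      push Not at hcon2
      exact Set.infinite_of_injective_forall_mem hinj hcon2 hfin
    simp only [Set.mem_ofPred_eq, not_forall, not_le] at hr
    obtain ⟨p, hpP, hp⟩ := hr
    refine ⟨p, hpP, ?_⟩
    by_contra hnp
    have hne : w ≠ p := fun h => hwP (h ▸ hpP)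
    have hd := hT.2 p (hPT hpP) w hwT (Ne.symm hne)
    rw [GC_dist] at hd hp
    rw [GC_dist] at hp
    have h1 := norm_branch (pre n i) (FreeGroup.mk (word n i r)) (w.1⁻¹ * p.1)
      (by rw [toWord_word]; exact ⟨_, rfl⟩) hnp
    rw [pre_length n i i.2.le] at h1
    have h2 : (w.1⁻¹ * p.1)⁻¹ * FreeGroup.mk (word n i r) =
        p.1⁻¹ * (w.1 * FreeGroup.mk (word n i r)) := by group
    rw [h2] at h1
    simp only [DC] at hd hp
    rw [show w.1⁻¹ * (w.1 * FreeGroup.mk (word n i r)) = FreeGroup.mk (word n i r) by group]
      at hp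
    omega
  choose p hpP hp using key
  have hpinj : Function.Injective p := by
    intro i j h
    have h1 := hp i
    have h2 := hp j
    rw [h] at h1
    have h3 : pre n i = pre n j := by
      rw [List.prefix_iff_eq_take] at h1 h2
      rw [h1, h2, pre_length n i i.2.le, pre_length n j j.2.le]
    have h4 := congrArg (List.count la) h3
    rw [count_pre, count_pre] at h4
    exact Fin.ext h4
  have hcard : n ≤ P.card := by
    have h1 : (Finset.univ.image p) ⊆ P := by
      intro x hx
      rw [Finset.mem_image] at hx
      obtain ⟨i, -, rfl⟩ := hx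
      exact hpP i
    have h2 := Finset.card_le_card h1
    rw [Finset.card_image_of_injective _ hpinj, Finset.card_univ, Fintype.card_fin] at h2
    exact h2
  omega

theorem result : ∃ (V W : Type) (G : SimpleGraph V) (H : SimpleGraph W)
    (_ : G.LocallyFinite) (_ : H.LocallyFinite), Infinite V ∧ Infinite W ∧
    G.Connected ∧ H.Connected ∧ VertexTransitive G ∧ VertexTransitive H ∧
    QuasiIsometric G H ∧ survival G ≤ 8 ∧ survival H = ⊤ := by
  refine ⟨F × ℤ, F × ℤ, GS, GC, instLF, instLFC, inferInstance, inferInstance, GS_conn, GC_conn,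
    GS_vt, GC_vt, ?_, GS_survival, GC_survival⟩
  refine ⟨id, 2, 0, by norm_num, le_rfl, ?_, ?_⟩
  · intro x y
    simp only [id, GS_dist, GC_dist, sub_zero, add_zero]
    have h1 : DS x y ≤ DC x y := by unfold DS DC; omega
    have h2 : DC x y ≤ 2 * DS x y := by unfold DS DC; omega
    have h1' : (DS x y : ℝ) ≤ DC x y := by exact_mod_cast h1
    have h2' : (DC x y : ℝ) ≤ 2 * DS x y := by exact_mod_cast h2
    have h3 : (0 : ℝ) ≤ DS x y := by positivity
    constructor
    · linarith
    · exact h2'
  · intro y
    exact ⟨y, by simp⟩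

end Pool.Agent.Results.MP_b633b3_co.StrongVersusCartesian
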